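import Mathlib

/-!
MP_02f065_gt (closed geodesics of length at most pi on real projective spaces).
Definitions for the theorem on metrics of RP^3 conformal to torus invariant metrics.
A metric on RP^3 is an antipodally invariant metric on the unit sphere S^3 of R^4.
-/

open MeasureTheory Set Filter Topology

noncomputable section

namespace Pool.Agent.Work.MP_02f065_gt.Toric

/-- Euclidean 4-space; its unit sphere is S^3. -/
abbrev E : Type := EuclideanSpace ℝ (Fin 4)

/-- Fields of bilinear forms on E (only their values at unit vectors x, on vectors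
orthogonal to x, matter). -/
abbrev Form : Type := E → E →L[ℝ] E →L[ℝ] ℝ

/-- `g` is a (continuous) Riemannian metric on RP^3 = S^3/±1, lifted to S^3: at every unit
vector `x` it is symmetric and positive definite on the tangent space (the vectors orthogonal
to `x`), it depends continuously on `x`, and it is invariant under the antipodal map. -/
structure IsMetric (g : Form) : Prop where
  cont : ContinuousOn g (Metric.sphere (0 : E) 1)
  symm : ∀ x v w : E, ‖x‖ = 1 → inner ℝ x v = 0 → inner ℝ x w = 0 → g x v w = g x w v
  pos : ∀ x v : E, ‖x‖ = 1 → inner ℝ x v = 0 → v ≠ 0 → 0 < g x v v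
  even : ∀ x v w : E, ‖x‖ = 1 → inner ℝ x v = 0 → inner ℝ x w = 0 →
    g (-x) v w = g x v w

/-- The round metric. -/
def round : Form := fun _ => innerSL ℝ

/-- Orthogonal projection to the tangent space at `x`. -/
def tang (x v : E) : E := v - (inner ℝ x v) • x

/-- The volume density of `g` with respect to the round metric of S^3 at `x`: the square root
of the determinant of `g` on the tangent space (completed by the unit normal vector `x`). -/
def volDensity (g : Form) (x : E) : ℝ :=
  Real.sqrt (Matrix.det (Matrix.of fun i j : Fin 4 =>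
    g x (tang x (EuclideanSpace.single i 1)) (tang x (EuclideanSpace.single j 1)) + x i * x j))

/-- The volume of (RP^3, g): half of the volume of (S^3, g). -/
def vol (g : Form) : ℝ :=
  (1 / 2) * ∫ x : Metric.sphere (0 : E) 1, volDensity g x ∂((volume : Measure E).toSphere)

/-- `c` is a C^1 curve in S^3 from `x` to `y` (parametrised by [0,1]). -/
structure IsCurve (c : ℝ → E) (x y : E) : Prop where
  smooth : ContDiff ℝ 1 c
  sphere : ∀ t, ‖c t‖ = 1
  left : c 0 = x
  right : c 1 = y

/-- Length of a C^1 curve. -/
def length (g : Form) (c : ℝ → E) : ℝ :=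
  ∫ t in (0 : ℝ)..1, Real.sqrt (g (c t) (deriv c t) (deriv c t))

/-- Riemannian distance in (S^3, g): infimum of the lengths of the C^1 curves. -/
def rdist (g : Form) (x y : E) : ℝ := sInf {l | ∃ c, IsCurve c x y ∧ length g c = l}

/-- Riemannian distance in (RP^3, g) of the points ±x and ±y. -/
def rpDist (g : Form) (x y : E) : ℝ := min (rdist g x y) (rdist g x (-y))

/-- `γ` is (the continuous lift to S^3 of) a unit speed closed geodesic of (RP^3, g), one
period of which has length `l`: it is locally distance minimising in RP^3 and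
`±γ(t + l) = ±γ(t)`. -/
structure IsClosedGeodesic (g : Form) (γ : ℝ → E) (l : ℝ) : Prop where
  cont : Continuous γ
  sphere : ∀ t, ‖γ t‖ = 1
  geodesic : ∃ ε > 0, ∀ s t, |s - t| ≤ ε → rpDist g (γ s) (γ t) = |s - t|
  pos : 0 < l
  closed : (∀ t, γ (t + l) = γ t) ∨ (∀ t, γ (t + l) = -γ t)

/-- The action of the torus: rotation by `θ` in the first and by `φ` in the second
coordinate plane. -/
def rot (θ φ : ℝ) (x : E) : E :=
  !₂[Real.cos θ * x 0 - Real.sin θ * x 1, Real.sin θ * x 0 + Real.cos θ * x 1,
    Real.cos φ * x 2 - Real.sin φ * x 3, Real.sin φ * x 2 + Real.cos φ * x 3]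

/-- `g` is invariant under the torus action. -/
def IsToric (g : Form) : Prop :=
  ∀ (θ φ : ℝ) (x v w : E), ‖x‖ = 1 → inner ℝ x v = 0 → inner ℝ x w = 0 →
    g (rot θ φ x) (rot θ φ v) (rot θ φ w) = g x v w

/-- `g` is conformal to a torus invariant metric. -/
def ConformallyToric (g : Form) : Prop :=
  ∃ (g₁ : Form) (u : E → ℝ), IsMetric g₁ ∧ IsToric g₁ ∧
    ContinuousOn u (Metric.sphere (0 : E) 1) ∧ (∀ x, ‖x‖ = 1 → 0 < u x) ∧
    ∀ x v w : E, ‖x‖ = 1 → inner ℝ x v = 0 → inner ℝ x w = 0 → g x v w = u x * g₁ x v w

end Pool.Agent.Work.MP_02f065_gt.Toric
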