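import Pool.Agent.Work.MP_02f065_gt.Toric.Defs

/-!
Statements of the items for MP_02f065_gt (toric theorem). Each item `X` is to be proved as
`theorem itemX : claimX` (hypotheses that are other claims may be used freely).
-/

open MeasureTheory Set Filter Topology

noncomputable section

namespace Pool.Agent.Work.MP_02f065_gt.Toric

/-! ### Part A: metric geometry of S^3 and RP^3 -/

/-- A C^1 arc on a compact parameter interval, with derivative `c'`. -/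
structure IsArc (c c' : ℝ → E) (a b : ℝ) : Prop where
  deriv : ∀ t ∈ Icc a b, HasDerivWithinAt c (c' t) (Icc a b) t
  cont : ContinuousOn c' (Icc a b)
  sphere : ∀ t ∈ Icc a b, ‖c t‖ = 1

/-- Length of an arc. -/
def arcLength (g : Form) (c c' : ℝ → E) (a b : ℝ) : ℝ :=
  ∫ t in a..b, Real.sqrt (g (c t) (c' t) (c' t))

def claimA1 : Prop := ∀ g : Form, IsMetric g → ∃ m M : ℝ, 0 < m ∧ 0 < M ∧
  ∀ x v : E, ‖x‖ = 1 → inner ℝ x v = 0 →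
    m ^ 2 * ‖v‖ ^ 2 ≤ g x v v ∧ g x v v ≤ M ^ 2 * ‖v‖ ^ 2

def claimA2 : Prop := ∀ (g : Form) (c c' : ℝ → E) (a b : ℝ), IsMetric g → a < b →
  IsArc c c' a b → ∃ k, IsCurve k (c a) (c b) ∧ length g k = arcLength g c c' a b

def claimA3 : Prop := ∀ (g : Form) (c d : ℝ → E) (x y z : E), IsMetric g →
  IsCurve c x y → IsCurve d y z → ∃ k, IsCurve k x z ∧ length g k = length g c + length g d

/-- Comparison of the distance with the Euclidean one. -/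
def claimA4a : Prop := ∀ g : Form, IsMetric g → ∃ m M : ℝ, 0 < m ∧ 0 < M ∧
  ∀ x y : E, ‖x‖ = 1 → ‖y‖ = 1 → (∃ c, IsCurve c x y) ∧
    m * ‖x - y‖ ≤ rdist g x y ∧ rdist g x y ≤ M * ‖x - y‖

/-- Basic properties of the distance. -/
def claimA4b : Prop := ∀ g : Form, IsMetric g →
  (∀ (x y : E) (c : ℝ → E), IsCurve c x y → rdist g x y ≤ length g c) ∧
  ∀ x y z : E, ‖x‖ = 1 → ‖y‖ = 1 → ‖z‖ = 1 →
    rdist g y x = rdist g x y ∧ rdist g (-x) (-y) = rdist g x y ∧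
    rdist g x z ≤ rdist g x y + rdist g y z

/-- Shortest paths exist. -/
def claimA5 : Prop := ∀ (g : Form) (x y : E), IsMetric g → ‖x‖ = 1 → ‖y‖ = 1 →
  ∃ c : ℝ → E, (∀ t, ‖c t‖ = 1) ∧ c 0 = x ∧ c (rdist g x y) = y ∧
    ∀ s ∈ Icc 0 (rdist g x y), ∀ t ∈ Icc 0 (rdist g x y), rdist g (c s) (c t) = |s - t|

/-- The systole and its closed geodesic. -/
def claimA6 : Prop := ∀ g : Form, IsMetric g → ∃ L : ℝ, 0 < L ∧
  (∀ (x : E) (c : ℝ → E), ‖x‖ = 1 → IsCurve c x (-x) → L ≤ length g c) ∧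
  ∃ γ, IsClosedGeodesic g γ L

/-! ### Rotations -/

def claimR1 : Prop := ∀ (θ φ : ℝ) (x y : E) (t : ℝ),
  rot θ φ (x + y) = rot θ φ x + rot θ φ y ∧ rot θ φ (t • x) = t • rot θ φ x ∧
  inner ℝ (rot θ φ x) (rot θ φ y) = inner ℝ x y ∧ ‖rot θ φ x‖ = ‖x‖ ∧
  (∀ θ' φ', rot θ φ (rot θ' φ' x) = rot (θ + θ') (φ + φ') x) ∧
  rot 0 0 x = x ∧ rot Real.pi Real.pi x = -x ∧ rot Real.pi (-Real.pi) x = -x

def claimR2 : Prop := Continuous fun p : ℝ × ℝ × E => rot p.1 p.2.1 p.2.2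

/-- The slice. -/
def pt (s : ℝ) : E := !₂[Real.cos s, 0, Real.sin s, 0]
def dpt (s : ℝ) : E := !₂[-Real.sin s, 0, Real.cos s, 0]
def X1 (s : ℝ) : E := !₂[0, Real.cos s, 0, 0]
def X2 (s : ℝ) : E := !₂[0, 0, 0, Real.sin s]

def claimR3 : Prop := ∀ (α β σ α' β' σ' : ℝ → ℝ) (S : Set ℝ) (t : ℝ),
  HasDerivWithinAt α (α' t) S t → HasDerivWithinAt β (β' t) S t →
  HasDerivWithinAt σ (σ' t) S t →
  HasDerivWithinAt (fun t => rot (α t) (β t) (pt (σ t)))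
    (rot (α t) (β t) (σ' t • dpt (σ t) + α' t • X1 (σ t) + β' t • X2 (σ t))) S t

/-! ### Part B: averaging of the conformal factor over the torus -/

def avg (lam : E → ℝ) (x : E) : ℝ :=
  (1 / (4 * Real.pi ^ 2)) *
    ∫ θ in (0 : ℝ)..(2 * Real.pi), ∫ φ in (0 : ℝ)..(2 * Real.pi), lam (rot θ φ x)

def claimB1 : Prop := ∀ (g₁ : Form) (lam : E → ℝ), IsMetric g₁ → IsToric g₁ →
  ContinuousOn lam (Metric.sphere (0 : E) 1) → (∀ x, ‖x‖ = 1 → 0 < lam x) →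
  IsMetric (fun x => (avg lam x) ^ 2 • g₁ x) ∧ IsToric (fun x => (avg lam x) ^ 2 • g₁ x)

def claimB2 : Prop := ∀ (g g₁ : Form) (lam : E → ℝ) (L : ℝ), IsMetric g → IsMetric g₁ →
  IsToric g₁ → ContinuousOn lam (Metric.sphere (0 : E) 1) → (∀ x, ‖x‖ = 1 → 0 < lam x) →
  (∀ x v w : E, ‖x‖ = 1 → inner ℝ x v = 0 → inner ℝ x w = 0 →
    g x v w = (lam x) ^ 2 * g₁ x v w) →
  (∀ (x : E) (c : ℝ → E), ‖x‖ = 1 → IsCurve c x (-x) → L ≤ length g c) →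
  ∀ (x : E) (c : ℝ → E), ‖x‖ = 1 → IsCurve c x (-x) →
    L ≤ length (fun x => (avg lam x) ^ 2 • g₁ x) c

/-- Scaling of the volume density. -/
def claimB3 : Prop := ∀ (g g' : Form) (x : E) (r : ℝ), ‖x‖ = 1 → 0 < r →
  (∀ v w : E, inner ℝ x v = 0 → inner ℝ x w = 0 → g' x v w = r ^ 2 * g x v w) →
  volDensity g' x = r ^ 3 * volDensity g x

/-- Invariance of the volume density. -/
def claimB4 : Prop := ∀ (g : Form) (θ φ : ℝ) (x : E), IsToric g → ‖x‖ = 1 →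
  volDensity g (rot θ φ x) = volDensity g x

/-- Integration over S^3 in torus coordinates. -/
def claimB5 : Prop := ∀ F : E → ℝ, ContinuousOn F (Metric.sphere (0 : E) 1) →
  ∫ x : Metric.sphere (0 : E) 1, F x ∂((volume : Measure E).toSphere) =
    ∫ s in (0 : ℝ)..(Real.pi / 2), (∫ θ in (0 : ℝ)..(2 * Real.pi),
      ∫ φ in (0 : ℝ)..(2 * Real.pi), F (rot θ φ (pt s))) * (Real.cos s * Real.sin s)

/-- Gaussian integral over E in spherical coordinates. -/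
def claimB5a : Prop := ∀ F : E → ℝ, ContinuousOn F (Metric.sphere (0 : E) 1) →
  ∫ x : E, F (‖x‖⁻¹ • x) * Real.exp (-‖x‖ ^ 2) =
    (1 / 2) * ∫ x : Metric.sphere (0 : E) 1, F x ∂((volume : Measure E).toSphere)

/-- Integral of `F` over a torus orbit of the slice. -/
def orbInt (F : E → ℝ) (s : ℝ) : ℝ :=
  ∫ θ in (0 : ℝ)..(2 * Real.pi), ∫ φ in (0 : ℝ)..(2 * Real.pi), F (rot θ φ (pt s))

/-- Gaussian integral over E in two polar coordinate systems. -/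
def claimB5b : Prop := ∀ F : E → ℝ, ContinuousOn F (Metric.sphere (0 : E) 1) →
  ∫ x : E, F (‖x‖⁻¹ • x) * Real.exp (-‖x‖ ^ 2) =
    ∫ z in (Ioi (0 : ℝ) ×ˢ Ioi (0 : ℝ)),
      orbInt F (Real.arctan (z.2 / z.1)) * (z.1 * z.2 * Real.exp (-(z.1 ^ 2 + z.2 ^ 2)))

/-- Polar coordinates in the quadrant. -/
def claimB5c : Prop := ∀ Φ : ℝ → ℝ, ContinuousOn Φ (Icc 0 (Real.pi / 2)) →
  ∫ z in (Ioi (0 : ℝ) ×ˢ Ioi (0 : ℝ)),
      Φ (Real.arctan (z.2 / z.1)) * (z.1 * z.2 * Real.exp (-(z.1 ^ 2 + z.2 ^ 2))) =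
    (1 / 2) * ∫ s in (0 : ℝ)..(Real.pi / 2), Φ s * (Real.cos s * Real.sin s)

/-- The volume density is continuous. -/
def claimB6 : Prop := ∀ g : Form, IsMetric g →
  ContinuousOn (volDensity g) (Metric.sphere (0 : E) 1)

def claimB7 : Prop := ∀ (g g₁ : Form) (lam : E → ℝ), IsMetric g → IsMetric g₁ →
  IsToric g₁ → ContinuousOn lam (Metric.sphere (0 : E) 1) → (∀ x, ‖x‖ = 1 → 0 < lam x) →
  (∀ x v w : E, ‖x‖ = 1 → inner ℝ x v = 0 → inner ℝ x w = 0 →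
    g x v w = (lam x) ^ 2 * g₁ x v w) →
  vol (fun x => (avg lam x) ^ 2 • g₁ x) ≤ vol g

/-! ### Part C: reduction of a toric metric to one variable -/

def mA (g : Form) (s : ℝ) : ℝ := g (pt s) (dpt s) (dpt s)
def mB1 (g : Form) (s : ℝ) : ℝ := g (pt s) (dpt s) (X1 s)
def mB2 (g : Form) (s : ℝ) : ℝ := g (pt s) (dpt s) (X2 s)
def mG11 (g : Form) (s : ℝ) : ℝ := g (pt s) (X1 s) (X1 s)
def mG12 (g : Form) (s : ℝ) : ℝ := g (pt s) (X1 s) (X2 s)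
def mG22 (g : Form) (s : ℝ) : ℝ := g (pt s) (X2 s) (X2 s)

/-- Determinant of the 2 x 2 form. -/
def Dt (G11 G12 G22 : ℝ → ℝ) (s : ℝ) : ℝ := G11 s * G22 s - G12 s ^ 2

/-- The quadratic form. -/
def Qf (G11 G12 G22 : ℝ → ℝ) (s y1 y2 : ℝ) : ℝ :=
  G11 s * y1 ^ 2 + 2 * G12 s * y1 * y2 + G22 s * y2 ^ 2

/-- The dual quadratic form. -/
def Nf (G11 G12 G22 : ℝ → ℝ) (s p q : ℝ) : ℝ :=
  (G22 s * p ^ 2 - 2 * G12 s * p * q + G11 s * q ^ 2) / Dt G11 G12 G22 s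

/-- Projection of `dpt` to the torus directions. -/
def mb1 (g : Form) (s : ℝ) : ℝ :=
  (mG22 g s * mB1 g s - mG12 g s * mB2 g s) / Dt (mG11 g) (mG12 g) (mG22 g) s
def mb2 (g : Form) (s : ℝ) : ℝ :=
  (mG11 g s * mB2 g s - mG12 g s * mB1 g s) / Dt (mG11 g) (mG12 g) (mG22 g) s
def ma (g : Form) (s : ℝ) : ℝ :=
  Real.sqrt (mA g s - mb1 g s * mB1 g s - mb2 g s * mB2 g s)

/-- The data of the one-dimensional problem on `(0, σ)`. -/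
structure CoreData (σ : ℝ) (a G11 G12 G22 : ℝ → ℝ) : Prop where
  σpos : 0 < σ
  ca : ContinuousOn a (Ioo 0 σ)
  c11 : ContinuousOn G11 (Ioo 0 σ)
  c12 : ContinuousOn G12 (Ioo 0 σ)
  c22 : ContinuousOn G22 (Ioo 0 σ)
  apos : ∀ s ∈ Ioo 0 σ, 0 < a s
  pos11 : ∀ s ∈ Ioo 0 σ, 0 < G11 s
  posD : ∀ s ∈ Ioo 0 σ, 0 < Dt G11 G12 G22 s
  int : IntervalIntegrable a volume 0 σ
  intD : IntervalIntegrable (fun s => a s * Real.sqrt (Dt G11 G12 G22 s)) volume 0 σ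
  lim0 : Tendsto G22 (𝓝[>] 0) (𝓝 0)
  limσ : Tendsto G11 (𝓝[<] σ) (𝓝 0)

/-- Every path which turns by `(π, π)` has length at least `L`. -/
def PathHyp (σ L : ℝ) (a G11 G12 G22 : ℝ → ℝ) : Prop :=
  ∀ s1 s2 : ℝ, 0 < s1 → s1 < s2 → s2 < σ → ∀ y1 y2 : ℝ → ℝ,
    ContinuousOn y1 (Icc s1 s2) → ContinuousOn y2 (Icc s1 s2) →
    2 * (∫ s in s1..s2, y1 s) = Real.pi → 2 * (∫ s in s1..s2, y2 s) = Real.pi →
    L ≤ 2 * ∫ s in s1..s2, Real.sqrt (a s ^ 2 + Qf G11 G12 G22 s (y1 s) (y2 s))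

/-- The orbits which turn by `(π, π)` have length at least `L`. -/
def DiagHyp (σ L : ℝ) (G11 G12 G22 : ℝ → ℝ) : Prop :=
  ∀ s ∈ Ioo 0 σ, L ≤ Real.pi * Real.sqrt (G11 s + 2 * G12 s + G22 s)

def claimC1a : Prop := ∀ (g : Form) (s : ℝ), IsMetric g → s ∈ Ioo 0 (Real.pi / 2) →
  0 < mG11 g s ∧ 0 < Dt (mG11 g) (mG12 g) (mG22 g) s ∧
  0 < mA g s - mb1 g s * mB1 g s - mb2 g s * mB2 g s

def claimC1 : Prop := ∀ g : Form, IsMetric g →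
  CoreData (Real.pi / 2) (ma g) (mG11 g) (mG12 g) (mG22 g)

/-- Going out along the slice while turning. -/
def claimC2a : Prop := ∀ (g : Form), IsMetric g → IsToric g → ∀ s1 s2 θ φ : ℝ,
  0 < s1 → s1 < s2 → s2 < Real.pi / 2 → ∀ y1 y2 : ℝ → ℝ,
  ContinuousOn y1 (Icc s1 s2) → ContinuousOn y2 (Icc s1 s2) →
  ∃ c, IsCurve c (rot θ φ (pt s1))
      (rot (θ + ∫ s in s1..s2, (y1 s - mb1 g s)) (φ + ∫ s in s1..s2, (y2 s - mb2 g s)) (pt s2)) ∧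
    length g c = ∫ s in s1..s2,
      Real.sqrt (ma g s ^ 2 + Qf (mG11 g) (mG12 g) (mG22 g) s (y1 s) (y2 s))

/-- Coming back along the slice while turning. -/
def claimC2b : Prop := ∀ (g : Form), IsMetric g → IsToric g → ∀ s1 s2 θ φ : ℝ,
  0 < s1 → s1 < s2 → s2 < Real.pi / 2 → ∀ y1 y2 : ℝ → ℝ,
  ContinuousOn y1 (Icc s1 s2) → ContinuousOn y2 (Icc s1 s2) →
  ∃ c, IsCurve c (rot θ φ (pt s2))
      (rot (θ + ∫ s in s1..s2, (y1 s + mb1 g s)) (φ + ∫ s in s1..s2, (y2 s + mb2 g s)) (pt s1)) ∧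
    length g c = ∫ s in s1..s2,
      Real.sqrt (ma g s ^ 2 + Qf (mG11 g) (mG12 g) (mG22 g) s (y1 s) (y2 s))

def claimC2 : Prop := ∀ (g : Form) (L : ℝ), IsMetric g → IsToric g →
  (∀ (x : E) (c : ℝ → E), ‖x‖ = 1 → IsCurve c x (-x) → L ≤ length g c) →
  PathHyp (Real.pi / 2) L (ma g) (mG11 g) (mG12 g) (mG22 g) ∧
  PathHyp (Real.pi / 2) L (ma g) (mG11 g) (fun s => -mG12 g s) (mG22 g)

def claimC3 : Prop := ∀ (g : Form) (L : ℝ), IsMetric g → IsToric g →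
  (∀ (x : E) (c : ℝ → E), ‖x‖ = 1 → IsCurve c x (-x) → L ≤ length g c) →
  DiagHyp (Real.pi / 2) L (mG11 g) (mG12 g) (mG22 g) ∧
  DiagHyp (Real.pi / 2) L (mG11 g) (fun s => -mG12 g s) (mG22 g)

def claimC4 : Prop := ∀ (g : Form) (s : ℝ), IsMetric g → s ∈ Ioo 0 (Real.pi / 2) →
  volDensity g (pt s) * (Real.cos s * Real.sin s) =
    ma g s * Real.sqrt (Dt (mG11 g) (mG12 g) (mG22 g) s)

def claimC5 : Prop := ∀ g : Form, IsMetric g → IsToric g →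
  vol g = 2 * Real.pi ^ 2 * ∫ s in (0 : ℝ)..(Real.pi / 2),
    ma g s * Real.sqrt (Dt (mG11 g) (mG12 g) (mG22 g) s)

def claimC6 : Prop := vol round = Real.pi ^ 2

/-! ### Part D: the one-dimensional problem -/

/-- Momenta which are admissible on `[s1, s2]`. -/
def InK (G11 G12 G22 : ℝ → ℝ) (s1 s2 p q : ℝ) : Prop :=
  ∀ s ∈ Icc s1 s2, Nf G11 G12 G22 s p q ≤ 1

def Lam (a G11 G12 G22 : ℝ → ℝ) (s1 s2 p q : ℝ) : ℝ :=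
  Real.pi * (p + q) + 2 * ∫ s in s1..s2, a s * Real.sqrt (1 - Nf G11 G12 G22 s p q)

def IsMaxAt (a G11 G12 G22 : ℝ → ℝ) (s1 s2 p q : ℝ) : Prop :=
  InK G11 G12 G22 s1 s2 p q ∧
    ∀ p' q', InK G11 G12 G22 s1 s2 p' q' →
      Lam a G11 G12 G22 s1 s2 p' q' ≤ Lam a G11 G12 G22 s1 s2 p q

/-- Separation (Hahn-Banach in the space of displacements and lengths). -/
def claimD1a : Prop := ∀ (σ L : ℝ) (a G11 G12 G22 : ℝ → ℝ), CoreData σ a G11 G12 G22 →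
  PathHyp σ L a G11 G12 G22 → ∀ s1 s2, 0 < s1 → s1 < s2 → s2 < σ →
  ∃ p q : ℝ, ∀ y1 y2 : ℝ → ℝ, ContinuousOn y1 (Icc s1 s2) → ContinuousOn y2 (Icc s1 s2) →
    2 * (∫ s in s1..s2, (p * y1 s + q * y2 s)) + L ≤ Real.pi * (p + q) +
      2 * ∫ s in s1..s2, Real.sqrt (a s ^ 2 + Qf G11 G12 G22 s (y1 s) (y2 s))

/-- Pointwise optimisation. -/
def claimD1b : Prop := ∀ (σ L : ℝ) (a G11 G12 G22 : ℝ → ℝ), CoreData σ a G11 G12 G22 →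
  ∀ s1 s2 p q, 0 < s1 → s1 < s2 → s2 < σ →
  (∀ y1 y2 : ℝ → ℝ, ContinuousOn y1 (Icc s1 s2) → ContinuousOn y2 (Icc s1 s2) →
    2 * (∫ s in s1..s2, (p * y1 s + q * y2 s)) + L ≤ Real.pi * (p + q) +
      2 * ∫ s in s1..s2, Real.sqrt (a s ^ 2 + Qf G11 G12 G22 s (y1 s) (y2 s))) →
  InK G11 G12 G22 s1 s2 p q ∧ L ≤ Lam a G11 G12 G22 s1 s2 p q

/-- Duality (Hahn-Banach). -/
def claimD1 : Prop := ∀ (σ L : ℝ) (a G11 G12 G22 : ℝ → ℝ), CoreData σ a G11 G12 G22 →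
  PathHyp σ L a G11 G12 G22 → ∀ s1 s2, 0 < s1 → s1 < s2 → s2 < σ →
  ∃ p q, InK G11 G12 G22 s1 s2 p q ∧ L ≤ Lam a G11 G12 G22 s1 s2 p q

/-- The maximum is attained. -/
def claimD2a : Prop := ∀ (σ : ℝ) (a G11 G12 G22 : ℝ → ℝ), CoreData σ a G11 G12 G22 →
  ∀ s1 s2, 0 < s1 → s1 ≤ s2 → s2 < σ →
  ∃ z : ℝ × ℝ, IsMaxAt a G11 G12 G22 s1 s2 z.1 z.2

/-- The maximum is attained at only one point. -/
def claimD2b : Prop := ∀ (σ : ℝ) (a G11 G12 G22 : ℝ → ℝ), CoreData σ a G11 G12 G22 →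
  ∀ s1 s2, 0 < s1 → s1 ≤ s2 → s2 < σ → ∀ z w : ℝ × ℝ,
  IsMaxAt a G11 G12 G22 s1 s2 z.1 z.2 → IsMaxAt a G11 G12 G22 s1 s2 w.1 w.2 → z = w

/-- Joint continuity of the integral. -/
def claimD2c : Prop := ∀ (σ : ℝ) (a G11 G12 G22 : ℝ → ℝ), CoreData σ a G11 G12 G22 →
  ContinuousOn (fun w : (ℝ × ℝ) × (ℝ × ℝ) => Lam a G11 G12 G22 w.1.1 w.1.2 w.2.1 w.2.2)
    {w | 0 < w.1.1 ∧ w.1.1 ≤ w.1.2 ∧ w.1.2 < σ}

/-- The maximum point depends continuously on the interval. -/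
def claimD3 : Prop := ∀ (σ : ℝ) (a G11 G12 G22 : ℝ → ℝ), CoreData σ a G11 G12 G22 →
  ∀ (ε M : ℝ), 0 < ε → ε < M → M < σ → ∀ m : ℝ × ℝ → ℝ × ℝ,
  (∀ J : ℝ × ℝ, ε ≤ J.1 → J.1 ≤ J.2 → J.2 ≤ M →
    IsMaxAt a G11 G12 G22 J.1 J.2 (m J).1 (m J).2) →
  ContinuousOn m {J : ℝ × ℝ | ε ≤ J.1 ∧ J.1 ≤ J.2 ∧ J.2 ≤ M}

/-- A Poincare-Miranda theorem for the triangle. -/
def claimD4 : Prop := ∀ (ε M : ℝ) (F1 F2 : ℝ × ℝ → ℝ), ε < M →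
  ContinuousOn F1 {J : ℝ × ℝ | ε ≤ J.1 ∧ J.1 ≤ J.2 ∧ J.2 ≤ M} →
  ContinuousOn F2 {J : ℝ × ℝ | ε ≤ J.1 ∧ J.1 ≤ J.2 ∧ J.2 ≤ M} →
  (∀ y, ε ≤ y → y ≤ M → F1 (ε, y) ≤ 0) → (∀ x, ε ≤ x → x ≤ M → F2 (x, M) ≤ 0) →
  (∀ x, ε ≤ x → x ≤ M → 0 < F1 (x, x) + F2 (x, x)) →
  ∃ J : ℝ × ℝ, ε ≤ J.1 ∧ J.1 ≤ J.2 ∧ J.2 ≤ M ∧ F1 J = 0 ∧ F2 J = 0

/-- The inequality for every momentum in the simplex. -/
def CoreIneq (σ L : ℝ) (a G11 G12 G22 : ℝ → ℝ) : Prop :=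
  ∀ p q : ℝ, 0 < p → 0 < q → Real.pi * (p + q) < L →
    L ≤ Real.pi * (p + q) + 2 * ∫ s in (0 : ℝ)..σ, a s * Real.sqrt (1 - Nf G11 G12 G22 s p q)

def claimD5 : Prop := ∀ (σ L : ℝ) (a G11 G12 G22 : ℝ → ℝ), CoreData σ a G11 G12 G22 →
  PathHyp σ L a G11 G12 G22 → DiagHyp σ L G11 G12 G22 → CoreIneq σ L a G11 G12 G22

/-! ### Part E: integration over the momenta -/

def claimE1a : Prop :=
  Integrable (fun z : ℝ × ℝ => Real.sqrt (1 - (z.1 ^ 2 + z.2 ^ 2))) ∧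
  ∫ z : ℝ × ℝ, Real.sqrt (1 - (z.1 ^ 2 + z.2 ^ 2)) = 2 * Real.pi / 3

def claimE1b : Prop := ∀ A B C : ℝ, 0 < A → 0 < A * C - B ^ 2 →
  Integrable (fun z : ℝ × ℝ =>
    Real.sqrt (1 - (C * z.1 ^ 2 - 2 * B * z.1 * z.2 + A * z.2 ^ 2) / (A * C - B ^ 2))) ∧
  ∫ z : ℝ × ℝ,
    Real.sqrt (1 - (C * z.1 ^ 2 - 2 * B * z.1 * z.2 + A * z.2 ^ 2) / (A * C - B ^ 2)) =
  2 * Real.pi / 3 * Real.sqrt (A * C - B ^ 2)

def claimE1 : Prop := ∀ A B C : ℝ, 0 < A → 0 < A * C - B ^ 2 →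
  IntegrableOn (fun z : ℝ × ℝ =>
    Real.sqrt (1 - (C * z.1 ^ 2 - 2 * B * z.1 * z.2 + A * z.2 ^ 2) / (A * C - B ^ 2)))
    (Ioi 0 ×ˢ Ioi 0) ∧
  (∫ z in (Ioi (0 : ℝ) ×ˢ Ioi (0 : ℝ)),
    Real.sqrt (1 - (C * z.1 ^ 2 - 2 * B * z.1 * z.2 + A * z.2 ^ 2) / (A * C - B ^ 2))) +
  (∫ z in (Ioi (0 : ℝ) ×ˢ Ioi (0 : ℝ)),
    Real.sqrt (1 - (C * z.1 ^ 2 + 2 * B * z.1 * z.2 + A * z.2 ^ 2) / (A * C - B ^ 2))) =
  Real.pi / 3 * Real.sqrt (A * C - B ^ 2)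

def claimE2 : Prop := ∀ L : ℝ, 0 < L →
  ∫ z in {z : ℝ × ℝ | 0 < z.1 ∧ 0 < z.2 ∧ Real.pi * (z.1 + z.2) < L},
    (L - Real.pi * (z.1 + z.2)) = L ^ 3 / (6 * Real.pi ^ 2)

def claimE3 : Prop := ∀ (σ L : ℝ) (a G11 G12 G22 : ℝ → ℝ), 0 < L →
  CoreData σ a G11 G12 G22 → CoreIneq σ L a G11 G12 G22 →
  CoreIneq σ L a G11 (fun s => -G12 s) G22 →
  L ^ 3 ≤ 2 * Real.pi ^ 3 * ∫ s in (0 : ℝ)..σ, a s * Real.sqrt (Dt G11 G12 G22 s)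

/-! ### The theorem -/

def claimMain : Prop := ∀ g : Form, IsMetric g → ConformallyToric g → vol g ≤ vol round →
  ∃ (γ : ℝ → E) (l : ℝ), IsClosedGeodesic g γ l ∧ l ≤ Real.pi

end Pool.Agent.Work.MP_02f065_gt.Toric
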